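import Pool.Agent.H88Gain.Gain
import Pool.Agent.H23Sw.Loc

set_option autoImplicit false

/-!
# The lower bound for determinants of matrices with bounded cross ratios
-/

namespace Pool.Agent.H88Gain

open Matrix Pool.Agent.H23Sw

theorem inj_of_range {K : ℕ} {α : Type} {u u' : Fin K → α} (hu : Function.Injective u)
    (h : Set.range u' = Set.range u) : Function.Injective u' := by
  classical
  have h1 : Finset.univ.image u' = Finset.univ.image u := by
    ext x
    have h2 : x ∈ Set.range u' ↔ x ∈ Set.range u := by rw [h]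
    simpa using h2
  have h3 : (Finset.univ.image u').card = (Finset.univ : Finset (Fin K)).card := by
    rw [h1, Finset.card_image_of_injective _ hu]
  have h4 := Finset.card_image_iff.mp h3
  intro x y hxy
  exact h4 (Finset.mem_coe.mpr (Finset.mem_univ x)) (Finset.mem_coe.mpr (Finset.mem_univ y)) hxy

theorem norm_det_range {n K : ℕ} (A : Matrix (Fin n) (Fin n) ℂ) {u u' v v' : Fin K → Fin n}
    (hu : Function.Injective u) (hv : Function.Injective v)
    (h1 : Set.range u' = Set.range u) (h2 : Set.range v' = Set.range v) :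
    ‖(A.submatrix u' v').det‖ = ‖(A.submatrix u v).det‖ := by
  have hu' := inj_of_range hu h1
  have hv' := inj_of_range hv h2
  have a1 : ∀ i, ∃ j, u j = u' i := fun i => by
    have : u' i ∈ Set.range u := by rw [← h1]; exact Set.mem_range_self i
    exact this
  have a2 : ∀ i, ∃ j, v j = v' i := fun i => by
    have : v' i ∈ Set.range v := by rw [← h2]; exact Set.mem_range_self i
    exact this
  choose σ hσ using a1
  choose τ hτ using a2
  have b1 : Function.Injective σ := fun x y hxy => hu' (by rw [← hσ x, ← hσ y, hxy])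
  have b2 : Function.Injective τ := fun x y hxy => hv' (by rw [← hτ x, ← hτ y, hxy])
  have h3 : A.submatrix u' v' = (A.submatrix u v).submatrix σ τ := by
    ext i j
    show A (u' i) (v' j) = A (u (σ i)) (v (τ j))
    rw [hσ, hτ]
  rw [h3, norm_det_submatrix _ _ _ b1 b2]

private theorem rr {n K : ℕ} (s : Fin (n + 1)) (w : Fin K → Fin n) :
    Set.range (Fin.cons s (fun i => s.succAbove (w i)) : Fin (K + 1) → Fin (n + 1)) =
      insert s (s.succAbove '' Set.range w) := by
  rw [Fin.range_cons]
  congr 1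
  exact Set.range_comp s.succAbove w

theorem norm_sch {n K : ℕ} (A : Matrix (Fin (n + 1)) (Fin (n + 1)) ℂ) {p q : Fin (n + 1)}
    (h : A p q ≠ 0) {u v : Fin K → Fin n} (hu : Function.Injective u) (hv : Function.Injective v)
    {U V : Fin (K + 1) → Fin (n + 1)}
    (hU : Set.range U = insert p (p.succAbove '' Set.range u))
    (hV : Set.range V = insert q (q.succAbove '' Set.range v)) :
    ‖(A.submatrix U V).det‖ = ‖A p q‖ * ‖((sch A p q).submatrix u v).det‖ := by
  rw [norm_det_range A (cons_inj p hu) (cons_inj q hv) (by rw [hU, rr]) (by rw [hV, rr]),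
    det_sch_sub A p q h u v, norm_mul]

private theorem rg1 {n k : ℕ} (p : Fin (n + 1)) (x : Fin n) (f : Fin k → Fin n) :
    Set.range (Fin.cons (p.succAbove x) (Fin.cons p (fun i => p.succAbove (f i)) :
      Fin (k + 1) → Fin (n + 1)) : Fin (k + 2) → Fin (n + 1)) =
    insert p (p.succAbove '' Set.range (Fin.cons x f : Fin (k + 1) → Fin n)) := by
  rw [Fin.range_cons, Fin.range_cons, Fin.range_cons, Set.image_insert_eq, Set.insert_comm]
  congr 2
  exact Set.range_comp p.succAbove f

private theorem rg2 {n k : ℕ} (p : Fin (n + 1)) (x y : Fin n) (f : Fin k → Fin n) :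
    Set.range (Fin.cons (p.succAbove x) (Fin.cons (p.succAbove y)
      (Fin.cons p (fun i => p.succAbove (f i)) : Fin (k + 1) → Fin (n + 1)) :
        Fin (k + 2) → Fin (n + 1)) : Fin (k + 3) → Fin (n + 1)) =
    insert p (p.succAbove '' Set.range (Fin.cons x (Fin.cons y f : Fin (k + 1) → Fin n) :
      Fin (k + 2) → Fin n)) := by
  rw [Fin.range_cons, rg1, Fin.range_cons (x := x), Set.image_insert_eq, Set.insert_comm]

private theorem inj1 {n k : ℕ} {x y : Fin n} {f : Fin k → Fin n}
    (h : Function.Injective (Fin.cons x (Fin.cons y f : Fin (k + 1) → Fin n) :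
      Fin (k + 2) → Fin n)) : Function.Injective f ∧
    Function.Injective (Fin.cons x f : Fin (k + 1) → Fin n) ∧
    Function.Injective (Fin.cons y f : Fin (k + 1) → Fin n) := by
  rw [Fin.cons_injective_iff, Fin.cons_injective_iff] at h
  obtain ⟨h1, h2, h3⟩ := h
  refine ⟨h3, Fin.cons_injective_iff.mpr ⟨?_, h3⟩, Fin.cons_injective_iff.mpr ⟨h2, h3⟩⟩
  intro h4
  apply h1
  rw [Fin.range_cons]
  exact Set.mem_insert_of_mem _ h4

theorem Loc_sch {n : ℕ} {c : ℝ} {A : Matrix (Fin (n + 1)) (Fin (n + 1)) ℂ} (hA : Loc c A)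
    {p q : Fin (n + 1)} (h : A p q ≠ 0) : Loc c (sch A p q) := by
  intro k f g a a' b b' hf hg hE hab hab'
  have hP : 0 < ‖A p q‖ := norm_pos_iff.mpr h
  obtain ⟨f1, f2, f3⟩ := inj1 hf
  obtain ⟨g1, g2, g3⟩ := inj1 hg
  have nE : (A.submatrix (Fin.cons p (fun i => p.succAbove (f i)) : Fin (k + 1) → Fin (n + 1))
      (Fin.cons q (fun i => q.succAbove (g i)) : Fin (k + 1) → Fin (n + 1))).det =
      A p q * ((sch A p q).submatrix f g).det := det_sch_sub A p q h f g
  have nm : ∀ {x y : Fin n}, Function.Injective (Fin.cons x f : Fin (k + 1) → Fin n) →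
      Function.Injective (Fin.cons y g : Fin (k + 1) → Fin n) →
      ‖(A.submatrix (Fin.cons (p.succAbove x) (Fin.cons p (fun i => p.succAbove (f i)) :
          Fin (k + 1) → Fin (n + 1)) : Fin (k + 2) → Fin (n + 1))
        (Fin.cons (q.succAbove y) (Fin.cons q (fun i => q.succAbove (g i)) :
          Fin (k + 1) → Fin (n + 1)) : Fin (k + 2) → Fin (n + 1))).det‖ =
      ‖A p q‖ * ‖((sch A p q).submatrix (Fin.cons x f : Fin (k + 1) → Fin n)
        (Fin.cons y g : Fin (k + 1) → Fin n)).det‖ := fun hx hy =>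
    norm_sch A h hx hy (rg1 p _ f) (rg1 q _ g)
  have nD := norm_sch A h hf hg (rg2 p a a' f) (rg2 q b b' g)
  have nz : ∀ {z : ℂ} {w : ℂ}, ‖z‖ = ‖A p q‖ * ‖w‖ → w ≠ 0 → z ≠ 0 := by
    intro z w hzw hw hz
    rw [hz, norm_zero] at hzw
    have := mul_pos hP (norm_pos_iff.mpr hw)
    linarith
  have key := hA (k + 1) _ _ (p.succAbove a) (p.succAbove a') (q.succAbove b) (q.succAbove b')
    (inj_of_range (cons_inj p hf) ((rg2 p a a' f).trans (rr p _).symm))
    (inj_of_range (cons_inj q hg) ((rg2 q b b' g).trans (rr q _).symm))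
    (by rw [nE]; exact mul_ne_zero h hE) (nz (nm f2 g2) hab) (nz (nm f3 g3) hab')
  obtain ⟨k1, k2⟩ := key
  refine ⟨fun h1 h2 => ?_, fun h1 => ?_⟩
  · have := k1 (nz (nm f2 g3) h1) (nz (nm f3 g2) h2)
    rw [norm_mul, norm_mul, nm f2 g2, nm f3 g3, nm f2 g3, nm f3 g2] at this
    rw [norm_mul, norm_mul]
    have hPP : 0 < ‖A p q‖ * ‖A p q‖ := mul_pos hP hP
    refine le_of_mul_le_mul_left ?_ hPP
    linarith
  · have := k2 (nz nD h1)
    rw [norm_mul, norm_mul, nm f2 g2, nm f3 g3, nD, nE, norm_mul] at this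
    rw [norm_mul, norm_mul]
    have hPP : 0 < ‖A p q‖ * ‖A p q‖ := mul_pos hP hP
    refine le_of_mul_le_mul_left ?_ hPP
    linarith

theorem Loc_sub {n m : ℕ} {c : ℝ} {A : Matrix (Fin n) (Fin n) ℂ} (hA : Loc c A)
    {e e' : Fin m → Fin n} (he : Function.Injective e) (he' : Function.Injective e') :
    Loc c (A.submatrix e e') := by
  intro k f g a a' b b' hf hg hE hab hab'
  have c1 : ∀ (d : Fin m → Fin n) (x : Fin m) (u : Fin k → Fin m),
      d ∘ (Fin.cons x u : Fin (k + 1) → Fin m) = Fin.cons (d x) (d ∘ u) := fun d x u =>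
    Fin.comp_cons d x u
  have c2 : ∀ (d : Fin m → Fin n) (x y : Fin m) (u : Fin k → Fin m),
      d ∘ (Fin.cons x (Fin.cons y u : Fin (k + 1) → Fin m) : Fin (k + 2) → Fin m) =
        Fin.cons (d x) (Fin.cons (d y) (d ∘ u) : Fin (k + 1) → Fin n) := fun d x y u => by
    rw [← c1]
    exact Fin.comp_cons d x _
  have s0 : (A.submatrix e e').submatrix f g = A.submatrix (e ∘ f) (e' ∘ g) := rfl
  have s1 : ∀ (x y : Fin m), (A.submatrix e e').submatrix
      (Fin.cons x f : Fin (k + 1) → Fin m) (Fin.cons y g : Fin (k + 1) → Fin m) =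
      A.submatrix (Fin.cons (e x) (e ∘ f) : Fin (k + 1) → Fin n)
        (Fin.cons (e' y) (e' ∘ g) : Fin (k + 1) → Fin n) := fun x y => by
    rw [← c1, ← c1]
    rfl
  have s2 : (A.submatrix e e').submatrix
      (Fin.cons a (Fin.cons a' f : Fin (k + 1) → Fin m) : Fin (k + 2) → Fin m)
      (Fin.cons b (Fin.cons b' g : Fin (k + 1) → Fin m) : Fin (k + 2) → Fin m) =
      A.submatrix (Fin.cons (e a) (Fin.cons (e a') (e ∘ f) : Fin (k + 1) → Fin n) :
        Fin (k + 2) → Fin n) (Fin.cons (e' b) (Fin.cons (e' b') (e' ∘ g) :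
        Fin (k + 1) → Fin n) : Fin (k + 2) → Fin n) := by
    rw [← c2, ← c2]
    rfl
  rw [s0] at hE
  rw [s1] at hab hab'
  have key := hA k (e ∘ f) (e' ∘ g) (e a) (e a') (e' b) (e' b')
    (by rw [← c2]; exact he.comp hf) (by rw [← c2]; exact he'.comp hg) hE hab hab'
  rw [s0, s2, s1, s1, s1, s1]
  exact key

theorem gain_loc {c : ℝ} (hc : 1 ≤ c) :
    ∀ (n : ℕ) (A : Matrix (Fin (n + 1)) (Fin (n + 1)) ℂ), Loc c A →
      A 0 0 ≠ 0 → (A.submatrix Fin.succ Fin.succ).det ≠ 0 → A.det ≠ 0 →
      ‖A 0 0‖ * ‖(A.submatrix Fin.succ Fin.succ).det‖ ≤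
        c ^ n * (n.factorial : ℝ) * ‖A.det‖ := by
  intro n
  induction n with
  | zero =>
    intro A _ _ _ _
    have h1 : A.det = A 0 0 := by
      rw [Matrix.det_succ_column_zero]
      simp
    rw [h1]
    simp
  | succ n ih =>
    intro A H h00 hα hA
    by_cases hp : ∀ i j : Fin (n + 1), A i.succ j.succ = 0 ∨
        A 0 0 * A i.succ j.succ - A i.succ 0 * A 0 j.succ = 0
    · exact pattern hc A h00 hA hp
    · push Not at hp
      obtain ⟨i, j, hij, hd⟩ := hp
      have hd' : A 0 0 * A i.succ j.succ - A 0 j.succ * A i.succ 0 ≠ 0 := by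
        intro h
        apply hd
        linear_combination h
      have hz1 : (i.succ : Fin (n + 1 + 1)).succAbove 0 = 0 := Fin.succ_succAbove_zero i
      have hz2 : (j.succ : Fin (n + 1 + 1)).succAbove 0 = 0 := Fin.succ_succAbove_zero j
      have s00 : sch A i.succ j.succ 0 0 =
          (A 0 0 * A i.succ j.succ - A 0 j.succ * A i.succ 0) / A i.succ j.succ := by
        show A _ _ - A _ _ * A _ _ / A _ _ = _
        rw [hz1, hz2]
        field_simp
      have s00' : sch A i.succ j.succ 0 0 ≠ 0 := by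
        rw [s00]
        exact div_ne_zero hd' hij
      have hsub : (sch A i.succ j.succ).submatrix Fin.succ Fin.succ =
          sch (A.submatrix Fin.succ Fin.succ) i j := by
        ext a b
        show A _ _ - A _ _ * A _ _ / A _ _ = A _ _ - A _ _ * A _ _ / A _ _
        rw [Fin.succ_succAbove_succ, Fin.succ_succAbove_succ]
      have nα := norm_det_sch (A.submatrix Fin.succ Fin.succ) i j hij
      have nA := norm_det_sch A i.succ j.succ hij
      rw [← hsub] at nα
      have hα' : ((sch A i.succ j.succ).submatrix Fin.succ Fin.succ).det ≠ 0 := by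
        intro h
        apply hα
        rw [← norm_eq_zero, nα, h, norm_zero, mul_zero]
      have hA' : (sch A i.succ j.succ).det ≠ 0 := by
        intro h
        apply hA
        rw [← norm_eq_zero, nA, h, norm_zero, mul_zero]
      have key := ih _ (Loc_sch H hij) s00' hα' hA'
      have hν : ‖A 0 0‖ ≤ c * ‖sch A i.succ j.succ 0 0‖ := by
        have inj : ∀ x : Fin (n + 1), Function.Injective
            (Fin.cons 0 (Fin.cons x.succ (Fin.elim0 : Fin 0 → Fin (n + 1 + 1)) :
              Fin 1 → Fin (n + 1 + 1)) : Fin 2 → Fin (n + 1 + 1)) := by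
          intro x
          rw [Fin.cons_injective_iff, Fin.cons_injective_iff]
          refine ⟨?_, ?_, fun a => a.elim0⟩
          · rintro ⟨y, hy⟩
            have hy0 : y = 0 := Subsingleton.elim _ _
            rw [hy0] at hy
            exact Fin.succ_ne_zero x hy
          · rintro ⟨y, _⟩
            exact y.elim0
        have e1 : ∀ x y : Fin (n + 1 + 1),
            (A.submatrix (Fin.cons x (Fin.elim0 : Fin 0 → Fin (n + 1 + 1)) :
              Fin 1 → Fin (n + 1 + 1)) (Fin.cons y (Fin.elim0 : Fin 0 → Fin (n + 1 + 1)) :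
              Fin 1 → Fin (n + 1 + 1))).det = A x y := fun x y => by
          rw [Matrix.det_fin_one]
          rfl
        have e0 : (A.submatrix (Fin.elim0 : Fin 0 → Fin (n + 1 + 1))
            (Fin.elim0 : Fin 0 → Fin (n + 1 + 1))).det = 1 := Matrix.det_isEmpty
        have e2 : (A.submatrix (Fin.cons 0 (Fin.cons i.succ (Fin.elim0 : Fin 0 →
              Fin (n + 1 + 1)) : Fin 1 → Fin (n + 1 + 1)) : Fin 2 → Fin (n + 1 + 1))
            (Fin.cons 0 (Fin.cons j.succ (Fin.elim0 : Fin 0 → Fin (n + 1 + 1)) :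
              Fin 1 → Fin (n + 1 + 1)) : Fin 2 → Fin (n + 1 + 1))).det =
            A 0 0 * A i.succ j.succ - A 0 j.succ * A i.succ 0 := by
          rw [Matrix.det_fin_two]
          rfl
        have h1 := (H 0 Fin.elim0 Fin.elim0 0 i.succ 0 j.succ (inj i) (inj j)
          (by rw [e0]; exact one_ne_zero) (by rw [e1]; exact h00) (by rw [e1]; exact hij)).2
          (by rw [e2]; exact hd')
        rw [e1, e1, e2, e0, mul_one, norm_mul] at h1
        have hpos : 0 < ‖A i.succ j.succ‖ := norm_pos_iff.mpr hij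
        rw [s00, norm_div, ← mul_div_assoc, le_div_iff₀ hpos]
        exact h1
      have hf1 : ((n + 1).factorial : ℝ) = ((n : ℝ) + 1) * (n.factorial : ℝ) := by
        rw [Nat.factorial_succ]
        push_cast
        ring
      rw [nα, nA]
      set x := ‖A.submatrix Fin.succ Fin.succ i j‖ with hx
      have hx' : ‖A i.succ j.succ‖ = x := rfl
      rw [hx']
      set s := ‖((sch A i.succ j.succ).submatrix Fin.succ Fin.succ).det‖
      set t := ‖(sch A i.succ j.succ).det‖
      set ν := ‖A 0 0‖
      set ν' := ‖sch A i.succ j.succ 0 0‖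
      have hx0 : 0 ≤ x := norm_nonneg _
      have hs0 : 0 ≤ s := norm_nonneg _
      have ht0 : 0 ≤ t := norm_nonneg _
      have hc0 : 0 ≤ c := by linarith
      have hn0 : (0 : ℝ) ≤ n := by positivity
      have hF : (0 : ℝ) ≤ (n.factorial : ℝ) := by positivity
      calc ν * (x * s) ≤ (c * ν') * (x * s) := mul_le_mul_of_nonneg_right hν (by positivity)
        _ = c * x * (ν' * s) := by ring
        _ ≤ c * x * (c ^ n * (n.factorial : ℝ) * t) :=
            mul_le_mul_of_nonneg_left key (by positivity)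
        _ = 1 * (c ^ (n + 1) * (n.factorial : ℝ) * (x * t)) := by ring
        _ ≤ ((n : ℝ) + 1) * (c ^ (n + 1) * (n.factorial : ℝ) * (x * t)) :=
            mul_le_mul_of_nonneg_right (by linarith) (by positivity)
        _ = c ^ (n + 1) * ((n + 1).factorial : ℝ) * (x * t) := by
            rw [hf1]
            ring

/-- **The lower bound.** A matrix with bounded cross ratios and determinant different from zero
has a nonzero transversal whose product is at most `∏ c ^ k k!` times the determinant. -/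
theorem det_lower_loc {n : ℕ} {c : ℝ} (hc : 1 ≤ c) (A : Matrix (Fin n) (Fin n) ℂ) (H : Loc c A)
    (hA : A.det ≠ 0) :
    ∃ σ : Equiv.Perm (Fin n), (∀ i, A i (σ i) ≠ 0) ∧
      ∏ i, ‖A i (σ i)‖ ≤ (∏ k ∈ Finset.range n, (c ^ k * (k.factorial : ℝ))) * ‖A.det‖ := by
  induction n with
  | zero => exact ⟨1, fun i => i.elim0, by simp⟩
  | succ n ih =>
    obtain ⟨j, hj1, hj2⟩ : ∃ j : Fin (n + 1), A 0 j ≠ 0 ∧
        (A.submatrix Fin.succ j.succAbove).det ≠ 0 := by
      by_contra hcon
      push Not at hcon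
      apply hA
      rw [Matrix.det_succ_row_zero]
      refine Finset.sum_eq_zero fun j _ => ?_
      by_cases h : A 0 j = 0
      · rw [h]
        ring
      · rw [hcon j h]
        ring
    let e : Fin (n + 1) → Fin (n + 1) := Fin.cons j j.succAbove
    have he : Function.Injective e := by
      have := cons_inj (n := n) j (f := (id : Fin n → Fin n)) Function.injective_id
      exact this
    let B := A.submatrix id e
    have hB0 : B 0 0 = A 0 j := rfl
    have hBs : B.submatrix Fin.succ Fin.succ = A.submatrix Fin.succ j.succAbove := rfl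
    have hBd : ‖B.det‖ = ‖A.det‖ := norm_det_submatrix A id e Function.injective_id he
    have hBn : B.det ≠ 0 := by
      rw [← norm_pos_iff, hBd, norm_pos_iff]
      exact hA
    have hg := gain_loc hc n B (Loc_sub H Function.injective_id he) (by rw [hB0]; exact hj1)
      (by rw [hBs]; exact hj2) hBn
    rw [hB0, hBs, hBd] at hg
    obtain ⟨σ, hσ1, hσ2⟩ := ih (A.submatrix Fin.succ j.succAbove)
      (Loc_sub H (Fin.succ_injective n) Fin.succAbove_right_injective) hj2
    have hτ : Function.Injective (Fin.cons j (fun i => j.succAbove (σ i)) :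
        Fin (n + 1) → Fin (n + 1)) := cons_inj j σ.injective
    refine ⟨Equiv.ofBijective _ (Finite.injective_iff_bijective.mp hτ), fun i => ?_, ?_⟩
    · refine Fin.cases ?_ (fun i => ?_) i
      · exact hj1
      · exact hσ1 i
    · rw [Fin.prod_univ_succ, Finset.prod_range_succ]
      have h3 : ∏ i : Fin n, ‖A i.succ ((Equiv.ofBijective _
          (Finite.injective_iff_bijective.mp hτ)) i.succ)‖ =
          ∏ i : Fin n, ‖A.submatrix Fin.succ j.succAbove i (σ i)‖ := rfl
      have h4 : ‖A 0 ((Equiv.ofBijective _ (Finite.injective_iff_bijective.mp hτ)) 0)‖ =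
          ‖A 0 j‖ := rfl
      rw [h3, h4]
      have hP : (0 : ℝ) ≤ ∏ k ∈ Finset.range n, (c ^ k * (k.factorial : ℝ)) :=
        Finset.prod_nonneg fun k _ => by
          have : 0 ≤ c := by linarith
          positivity
      calc ‖A 0 j‖ * ∏ i : Fin n, ‖A.submatrix Fin.succ j.succAbove i (σ i)‖
          ≤ ‖A 0 j‖ * ((∏ k ∈ Finset.range n, (c ^ k * (k.factorial : ℝ))) *
              ‖(A.submatrix Fin.succ j.succAbove).det‖) :=
            mul_le_mul_of_nonneg_left hσ2 (norm_nonneg _)
        _ = (∏ k ∈ Finset.range n, (c ^ k * (k.factorial : ℝ))) *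
              (‖A 0 j‖ * ‖(A.submatrix Fin.succ j.succAbove).det‖) := by ring
        _ ≤ (∏ k ∈ Finset.range n, (c ^ k * (k.factorial : ℝ))) *
              (c ^ n * (n.factorial : ℝ) * ‖A.det‖) := mul_le_mul_of_nonneg_left hg hP
        _ = _ := by ring

end Pool.Agent.H88Gain
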