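import Mathlib

set_option autoImplicit false

/-!
# A lower bound for determinants with all minors in a multiplicative group
-/

namespace Pool.Agent.H88Gain

open Matrix

/-- Schur complement at the entry `0, 0`. -/
theorem det_schur {k : ℕ} (B : Matrix (Fin (k + 1)) (Fin (k + 1)) ℂ) (h : B 0 0 ≠ 0) :
    B.det = B 0 0 *
      (Matrix.of fun i j : Fin k => B i.succ j.succ - B i.succ 0 * B 0 j.succ / B 0 0).det := by
  have h1 : B.det = (Matrix.of fun i j : Fin (k + 1) =>
      B i j + (if i = 0 then 0 else -(B i 0 / B 0 0)) * B 0 j).det := by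
    symm
    refine Matrix.det_eq_of_forall_row_eq_smul_add_const
      (fun i => if i = 0 then 0 else -(B i 0 / B 0 0)) 0 (by simp) fun i j => rfl
  rw [h1, Matrix.det_succ_column_zero, Fin.sum_univ_succ]
  have h2 : ∑ i : Fin k, (-1 : ℂ) ^ ((i.succ : Fin (k + 1)) : ℕ) *
      (Matrix.of fun i j : Fin (k + 1) =>
        B i j + (if i = 0 then 0 else -(B i 0 / B 0 0)) * B 0 j) i.succ 0 *
      ((Matrix.of fun i j : Fin (k + 1) =>
        B i j + (if i = 0 then 0 else -(B i 0 / B 0 0)) * B 0 j).submatrix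
          i.succ.succAbove Fin.succ).det = 0 := by
    refine Finset.sum_eq_zero fun i _ => ?_
    have h3 : (Matrix.of fun i j : Fin (k + 1) =>
        B i j + (if i = 0 then 0 else -(B i 0 / B 0 0)) * B 0 j) i.succ 0 = 0 := by
      rw [Matrix.of_apply, if_neg (Fin.succ_ne_zero i)]
      field_simp
      ring
    rw [h3]
    ring
  rw [h2, add_zero]
  have h4 : (Matrix.of fun i j : Fin (k + 1) =>
      B i j + (if i = 0 then 0 else -(B i 0 / B 0 0)) * B 0 j) 0 0 = B 0 0 := by
    simp
  rw [h4]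
  have h5 : ((Matrix.of fun i j : Fin (k + 1) =>
      B i j + (if i = 0 then 0 else -(B i 0 / B 0 0)) * B 0 j).submatrix
        (Fin.succAbove 0) Fin.succ) =
      Matrix.of fun i j : Fin k => B i.succ j.succ - B i.succ 0 * B 0 j.succ / B 0 0 := by
    ext i j
    rw [Matrix.submatrix_apply, Matrix.of_apply, Matrix.of_apply, Fin.succAbove_zero,
      if_neg (Fin.succ_ne_zero i)]
    ring
  rw [h5]
  simp

theorem norm_det_submatrix {n : ℕ} (A : Matrix (Fin n) (Fin n) ℂ) (e f : Fin n → Fin n)
    (he : Function.Injective e) (hf : Function.Injective f) :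
    ‖(A.submatrix e f).det‖ = ‖A.det‖ := by
  obtain ⟨σ, hσ⟩ : ∃ σ : Equiv.Perm (Fin n), ⇑σ = e :=
    ⟨Equiv.ofBijective e (Finite.injective_iff_bijective.mp he), rfl⟩
  obtain ⟨τ, hτ⟩ : ∃ τ : Equiv.Perm (Fin n), ⇑τ = f :=
    ⟨Equiv.ofBijective f (Finite.injective_iff_bijective.mp hf), rfl⟩
  have h1 : A.submatrix e f = (A.submatrix σ id).submatrix id τ := by
    rw [hσ, hτ]
    rfl
  have hs : ∀ ρ : Equiv.Perm (Fin n), ‖((Equiv.Perm.sign ρ : ℤ) : ℂ)‖ = 1 := by
    intro ρ
    rcases Int.units_eq_one_or (Equiv.Perm.sign ρ) with h | h <;> rw [h] <;> simp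
  rw [h1, Matrix.det_permute', Matrix.det_permute, norm_mul, norm_mul, hs, hs, one_mul, one_mul]

/-- Schur complement at a general entry. -/
noncomputable def sch {n : ℕ} (A : Matrix (Fin (n + 1)) (Fin (n + 1)) ℂ) (p q : Fin (n + 1)) :
    Matrix (Fin n) (Fin n) ℂ :=
  Matrix.of fun i j => A (p.succAbove i) (q.succAbove j) -
    A (p.succAbove i) q * A p (q.succAbove j) / A p q

theorem cons_inj {n k : ℕ} (p : Fin (n + 1)) {f : Fin k → Fin n} (hf : Function.Injective f) :
    Function.Injective (Fin.cons p (fun i => p.succAbove (f i)) : Fin (k + 1) → Fin (n + 1)) := by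
  rw [Fin.cons_injective_iff]
  refine ⟨?_, (Fin.succAbove_right_injective).comp hf⟩
  rintro ⟨i, hi⟩
  exact Fin.succAbove_ne p (f i) hi

theorem det_sch_sub {n k : ℕ} (A : Matrix (Fin (n + 1)) (Fin (n + 1)) ℂ) (p q : Fin (n + 1))
    (h : A p q ≠ 0) (f g : Fin k → Fin n) :
    (A.submatrix (Fin.cons p (fun i => p.succAbove (f i)) : Fin (k + 1) → Fin (n + 1))
      (Fin.cons q (fun i => q.succAbove (g i)) : Fin (k + 1) → Fin (n + 1))).det =
      A p q * ((sch A p q).submatrix f g).det := by
  rw [det_schur _ (by simpa using h)]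
  rfl

theorem norm_det_sch {n : ℕ} (A : Matrix (Fin (n + 1)) (Fin (n + 1)) ℂ) (p q : Fin (n + 1))
    (h : A p q ≠ 0) : ‖A.det‖ = ‖A p q‖ * ‖(sch A p q).det‖ := by
  have h1 := det_sch_sub A p q h (id : Fin n → Fin n) id
  have h2 := norm_det_submatrix A _ _ (cons_inj p Function.injective_id)
    (cons_inj q Function.injective_id)
  have h3 : (sch A p q).submatrix (id : Fin n → Fin n) id = sch A p q := rfl
  rw [h3] at h1
  rw [← h2, ← norm_mul, ← h1]

/-- The second case: the matrix without row and column `0` is a `0`, `1` pattern. -/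
theorem pattern {n : ℕ} {c : ℝ} (hc : 1 ≤ c) (A : Matrix (Fin (n + 1)) (Fin (n + 1)) ℂ)
    (h00 : A 0 0 ≠ 0) (hA : A.det ≠ 0)
    (hp : ∀ i j : Fin n, A i.succ j.succ = 0 ∨
      A 0 0 * A i.succ j.succ - A i.succ 0 * A 0 j.succ = 0) :
    ‖A 0 0‖ * ‖(A.submatrix Fin.succ Fin.succ).det‖ ≤
      c ^ n * (n.factorial : ℝ) * ‖A.det‖ := by
  classical
  let Z : Matrix (Fin n) (Fin n) ℤ := Matrix.of fun i j => if A i.succ j.succ = 0 then 0 else 1
  let W : Matrix (Fin n) (Fin n) ℤ := Matrix.of fun i j => Z i j - 1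
  obtain ⟨K, hK⟩ : ∃ K : ℂ, K = (∏ i : Fin n, (A i.succ 0 / A 0 0)) * ∏ j : Fin n, A 0 j.succ :=
    ⟨_, rfl⟩
  have hdet : ∀ M : Matrix (Fin n) (Fin n) ℤ,
      (Matrix.of fun i j : Fin n => (A i.succ 0 / A 0 0) * (A 0 j.succ * (M i j : ℂ))).det =
        K * ((M.det : ℤ) : ℂ) := by
    intro M
    have h1 := Matrix.det_mul_column (fun i : Fin n => A i.succ 0 / A 0 0)
      (Matrix.of fun i j : Fin n => A 0 j.succ * (M i j : ℂ))
    have h2 := Matrix.det_mul_row (fun j : Fin n => A 0 j.succ)
      (M.map (fun z : ℤ => (z : ℂ)))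
    have h3 : (M.map (fun z : ℤ => (z : ℂ))).det = ((M.det : ℤ) : ℂ) := by
      have := (Int.castRingHom ℂ).map_det M
      rw [RingHom.mapMatrix_apply] at this
      exact this.symm
    rw [h3] at h2
    have h4 : (Matrix.of fun i j : Fin n => (A i.succ 0 / A 0 0) * (A 0 j.succ * (M i j : ℂ))).det =
        (∏ i : Fin n, (A i.succ 0 / A 0 0)) *
          (Matrix.of fun i j : Fin n => A 0 j.succ * (M i j : ℂ)).det := h1
    have h5 : (Matrix.of fun i j : Fin n => A 0 j.succ * (M i j : ℂ)).det =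
        (∏ j : Fin n, A 0 j.succ) * ((M.det : ℤ) : ℂ) := h2
    rw [h4, h5, hK]
    ring
  have e1 : A.submatrix Fin.succ Fin.succ =
      Matrix.of fun i j : Fin n => (A i.succ 0 / A 0 0) * (A 0 j.succ * (Z i j : ℂ)) := by
    ext i j
    rw [Matrix.submatrix_apply, Matrix.of_apply]
    show A i.succ j.succ = A i.succ 0 / A 0 0 * (A 0 j.succ *
      (((if A i.succ j.succ = 0 then 0 else 1 : ℤ)) : ℂ))
    by_cases h : A i.succ j.succ = 0
    · rw [if_pos h, h]
      simp
    · rw [if_neg h]
      rcases hp i j with h' | h'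
      · exact absurd h' h
      · field_simp
        push_cast
        linear_combination h'
  have e2 : (Matrix.of fun i j : Fin n =>
      A i.succ j.succ - A i.succ 0 * A 0 j.succ / A 0 0) =
      Matrix.of fun i j : Fin n => (A i.succ 0 / A 0 0) * (A 0 j.succ * (W i j : ℂ)) := by
    ext i j
    rw [Matrix.of_apply, Matrix.of_apply]
    have h1 : A i.succ j.succ = (A i.succ 0 / A 0 0) * (A 0 j.succ * (Z i j : ℂ)) :=
      congrFun (congrFun e1 i) j
    have h2 : ((W i j : ℤ) : ℂ) = (Z i j : ℂ) - 1 := by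
      show (((Z i j - 1 : ℤ)) : ℂ) = _
      push_cast
      ring
    rw [h2, h1]
    ring
  have d1 : (A.submatrix Fin.succ Fin.succ).det = K * ((Z.det : ℤ) : ℂ) := by rw [e1, hdet]
  have d2 : A.det = A 0 0 * (K * ((W.det : ℤ) : ℂ)) := by rw [det_schur A h00, e2, hdet]
  have hW : W.det ≠ 0 := by
    intro h
    apply hA
    rw [d2, h]
    simp
  have n1 : (1 : ℝ) ≤ ‖((W.det : ℤ) : ℂ)‖ := by
    rw [Complex.norm_intCast]
    exact_mod_cast Int.one_le_abs hW
  have n2 : ‖((Z.det : ℤ) : ℂ)‖ ≤ (n.factorial : ℝ) := by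
    have h1 := Matrix.det_le (A := Z) (abv := AbsoluteValue.abs) (x := 1) (by
      intro i j
      show |Z i j| ≤ 1
      show |(if A i.succ j.succ = 0 then 0 else 1 : ℤ)| ≤ 1
      split_ifs <;> simp)
    rw [Complex.norm_intCast]
    simp only [Fintype.card_fin, one_pow, nsmul_eq_mul, mul_one] at h1
    have h2 : |Z.det| ≤ (n.factorial : ℤ) := h1
    exact_mod_cast h2
  have n3 : (1 : ℝ) ≤ c ^ n := one_le_pow₀ hc
  rw [d1, d2, norm_mul, norm_mul, norm_mul]
  have hK0 : 0 ≤ ‖A 0 0‖ * ‖K‖ := by positivity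
  have hf : (0 : ℝ) ≤ (n.factorial : ℝ) := by positivity
  calc ‖A 0 0‖ * (‖K‖ * ‖((Z.det : ℤ) : ℂ)‖) = (‖A 0 0‖ * ‖K‖) * ‖((Z.det : ℤ) : ℂ)‖ := by ring
    _ ≤ (‖A 0 0‖ * ‖K‖) * (n.factorial : ℝ) := mul_le_mul_of_nonneg_left n2 hK0
    _ = 1 * (n.factorial : ℝ) * ((‖A 0 0‖ * ‖K‖) * 1) := by ring
    _ ≤ c ^ n * (n.factorial : ℝ) * ((‖A 0 0‖ * ‖K‖) * ‖((W.det : ℤ) : ℂ)‖) := by
        refine mul_le_mul (mul_le_mul_of_nonneg_right n3 hf)
          (mul_le_mul_of_nonneg_left n1 hK0) (by positivity) (by positivity)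
    _ = _ := by ring

variable {G : Set ℂ} {c : ℝ}

theorem gain (hc : 1 ≤ c) (h0 : (0 : ℂ) ∉ G) (hmul : ∀ p ∈ G, ∀ q ∈ G, p * q ∈ G)
    (hinv : ∀ p ∈ G, p⁻¹ ∈ G) (hneg : ∀ p ∈ G, -p ∈ G)
    (hC : ∀ p ∈ G, ∀ q ∈ G, (p + q = 0 ∨ p + q ∈ G) → ‖p‖ ≤ c * ‖q‖) :
    ∀ (n : ℕ) (A : Matrix (Fin (n + 1)) (Fin (n + 1)) ℂ),
      (∀ k (f g : Fin k → Fin (n + 1)), Function.Injective f → Function.Injective g →
        (A.submatrix f g).det = 0 ∨ (A.submatrix f g).det ∈ G) →
      A 0 0 ≠ 0 → (A.submatrix Fin.succ Fin.succ).det ≠ 0 → A.det ≠ 0 →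
      ‖A 0 0‖ * ‖(A.submatrix Fin.succ Fin.succ).det‖ ≤
        c ^ n * (n.factorial : ℝ) * ‖A.det‖ := by
  intro n
  induction n with
  | zero =>
    intro A _ _ _ _
    have h1 : A.det = A 0 0 := by
      rw [Matrix.det_succ_column_zero]
      simp
    rw [h1]
    simp
  | succ n ih =>
    intro A H h00 hα hA
    by_cases hp : ∀ i j : Fin (n + 1), A i.succ j.succ = 0 ∨
        A 0 0 * A i.succ j.succ - A i.succ 0 * A 0 j.succ = 0
    · exact pattern hc A h00 hA hp
    · push Not at hp
      obtain ⟨i, j, hij, hd⟩ := hp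
      have entry : ∀ a b : Fin (n + 1 + 1), A a b = 0 ∨ A a b ∈ G := by
        intro a b
        have h := H 1 (fun _ => a) (fun _ => b) (fun x y _ => Subsingleton.elim x y)
          (fun x y _ => Subsingleton.elim x y)
        rw [Matrix.det_fin_one, Matrix.submatrix_apply] at h
        exact h
      have two : A 0 0 * A i.succ j.succ - A 0 j.succ * A i.succ 0 ∈ G := by
        have h := H 2 ![0, i.succ] ![0, j.succ] (by
          intro x y hxy
          fin_cases x <;> fin_cases y <;> simp at hxy ⊢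
          exact absurd hxy.symm (Fin.succ_ne_zero i)) (by
          intro x y hxy
          fin_cases x <;> fin_cases y <;> simp at hxy ⊢
          exact absurd hxy.symm (Fin.succ_ne_zero j))
        rw [Matrix.det_fin_two] at h
        simp only [Matrix.submatrix_apply, Matrix.cons_val_zero, Matrix.cons_val_one] at h
        rcases h with h | h
        · exfalso
          apply hd
          linear_combination h
        · exact h
      -- the Schur complement
      have hz1 : (i.succ : Fin (n + 1 + 1)).succAbove 0 = 0 := Fin.succ_succAbove_zero i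
      have hz2 : (j.succ : Fin (n + 1 + 1)).succAbove 0 = 0 := Fin.succ_succAbove_zero j
      have s00 : sch A i.succ j.succ 0 0 =
          (A 0 0 * A i.succ j.succ - A 0 j.succ * A i.succ 0) / A i.succ j.succ := by
        show A _ _ - A _ _ * A _ _ / A _ _ = _
        rw [hz1, hz2]
        field_simp
      have s00' : sch A i.succ j.succ 0 0 ≠ 0 := by
        rw [s00]
        refine div_ne_zero ?_ hij
        intro h
        apply hd
        linear_combination h
      have hsub : (sch A i.succ j.succ).submatrix Fin.succ Fin.succ =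
          sch (A.submatrix Fin.succ Fin.succ) i j := by
        ext a b
        show A _ _ - A _ _ * A _ _ / A _ _ = A _ _ - A _ _ * A _ _ / A _ _
        rw [Fin.succ_succAbove_succ, Fin.succ_succAbove_succ]
      have nα := norm_det_sch (A.submatrix Fin.succ Fin.succ) i j hij
      have nA := norm_det_sch A i.succ j.succ hij
      rw [← hsub] at nα
      have H' : ∀ k (f g : Fin k → Fin (n + 1)), Function.Injective f → Function.Injective g →
          ((sch A i.succ j.succ).submatrix f g).det = 0 ∨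
            ((sch A i.succ j.succ).submatrix f g).det ∈ G := by
        intro k f g hf hg
        have h1 := det_sch_sub A i.succ j.succ hij f g
        have hinvG : (A i.succ j.succ)⁻¹ ∈ G :=
          hinv _ ((entry i.succ j.succ).resolve_left hij)
        have h3 : ((sch A i.succ j.succ).submatrix f g).det =
            (A.submatrix (Fin.cons i.succ (fun x => i.succ.succAbove (f x)) :
              Fin (k + 1) → Fin (n + 1 + 1))
            (Fin.cons j.succ (fun x => j.succ.succAbove (g x)) :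
              Fin (k + 1) → Fin (n + 1 + 1))).det * (A i.succ j.succ)⁻¹ := by
          rw [h1]
          field_simp
        rcases H (k + 1) _ _ (cons_inj i.succ hf) (cons_inj j.succ hg) with h2 | h2
        · left
          rw [h3, h2, zero_mul]
        · right
          rw [h3]
          exact hmul _ h2 _ hinvG
      have hα' : ((sch A i.succ j.succ).submatrix Fin.succ Fin.succ).det ≠ 0 := by
        intro h
        apply hα
        rw [← norm_eq_zero, nα, h, norm_zero, mul_zero]
      have hA' : (sch A i.succ j.succ).det ≠ 0 := by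
        intro h
        apply hA
        rw [← norm_eq_zero, nA, h, norm_zero, mul_zero]
      have key := ih _ H' s00' hα' hA'
      -- the change of the corner
      have hν : ‖A 0 0‖ ≤ c * ‖sch A i.succ j.succ 0 0‖ := by
        have hp1 : A 0 0 * A i.succ j.succ ∈ G :=
          hmul _ ((entry 0 0).resolve_left h00) _ ((entry i.succ j.succ).resolve_left hij)
        have h1 := hC _ hp1 _ (hneg _ two) (by
          have h2 : A 0 0 * A i.succ j.succ +
              -(A 0 0 * A i.succ j.succ - A 0 j.succ * A i.succ 0) = A 0 j.succ * A i.succ 0 := by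
            ring
          rw [h2]
          rcases entry 0 j.succ with h3 | h3
          · left
            rw [h3, zero_mul]
          · rcases entry i.succ 0 with h4 | h4
            · left
              rw [h4, mul_zero]
            · right
              exact hmul _ h3 _ h4)
        rw [norm_neg, norm_mul] at h1
        have hpos : 0 < ‖A i.succ j.succ‖ := norm_pos_iff.mpr hij
        rw [s00, norm_div, ← mul_div_assoc, le_div_iff₀ hpos]
        exact h1
      have hf1 : ((n + 1).factorial : ℝ) = ((n : ℝ) + 1) * (n.factorial : ℝ) := by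
        rw [Nat.factorial_succ]
        push_cast
        ring
      rw [nα, nA]
      set x := ‖A.submatrix Fin.succ Fin.succ i j‖ with hx
      have hx' : ‖A i.succ j.succ‖ = x := rfl
      rw [hx']
      set s := ‖((sch A i.succ j.succ).submatrix Fin.succ Fin.succ).det‖
      set t := ‖(sch A i.succ j.succ).det‖
      set ν := ‖A 0 0‖
      set ν' := ‖sch A i.succ j.succ 0 0‖
      have hx0 : 0 ≤ x := norm_nonneg _
      have hs0 : 0 ≤ s := norm_nonneg _
      have ht0 : 0 ≤ t := norm_nonneg _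
      have hc0 : 0 ≤ c := by linarith
      have hn0 : (0 : ℝ) ≤ n := by positivity
      have hF : (0 : ℝ) ≤ (n.factorial : ℝ) := by positivity
      calc ν * (x * s) ≤ (c * ν') * (x * s) := mul_le_mul_of_nonneg_right hν (by positivity)
        _ = c * x * (ν' * s) := by ring
        _ ≤ c * x * (c ^ n * (n.factorial : ℝ) * t) :=
            mul_le_mul_of_nonneg_left key (by positivity)
        _ = 1 * (c ^ (n + 1) * (n.factorial : ℝ) * (x * t)) := by ring
        _ ≤ ((n : ℝ) + 1) * (c ^ (n + 1) * (n.factorial : ℝ) * (x * t)) :=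
            mul_le_mul_of_nonneg_right (by linarith) (by positivity)
        _ = c ^ (n + 1) * ((n + 1).factorial : ℝ) * (x * t) := by
            rw [hf1]
            ring

theorem det_lower {n : ℕ} (G : Set ℂ) (c : ℝ) (hc : 1 ≤ c) (h0 : (0 : ℂ) ∉ G) (_h1 : (1 : ℂ) ∈ G)
    (hmul : ∀ p ∈ G, ∀ q ∈ G, p * q ∈ G) (hinv : ∀ p ∈ G, p⁻¹ ∈ G) (hneg : ∀ p ∈ G, -p ∈ G)
    (hC : ∀ p ∈ G, ∀ q ∈ G, (p + q = 0 ∨ p + q ∈ G) → ‖p‖ ≤ c * ‖q‖)
    (A : Matrix (Fin n) (Fin n) ℂ)
    (H : ∀ k (f g : Fin k → Fin n), Function.Injective f → Function.Injective g →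
      (A.submatrix f g).det = 0 ∨ (A.submatrix f g).det ∈ G) (hA : A.det ≠ 0) :
    ∃ σ : Equiv.Perm (Fin n), (∀ i, A i (σ i) ≠ 0) ∧
      ∏ i, ‖A i (σ i)‖ ≤ (∏ k ∈ Finset.range n, (c ^ k * (k.factorial : ℝ))) * ‖A.det‖ := by
  induction n with
  | zero => exact ⟨1, fun i => i.elim0, by simp⟩
  | succ n ih =>
    obtain ⟨j, hj1, hj2⟩ : ∃ j : Fin (n + 1), A 0 j ≠ 0 ∧
        (A.submatrix Fin.succ j.succAbove).det ≠ 0 := by
      by_contra hcon
      push Not at hcon
      apply hA
      rw [Matrix.det_succ_row_zero]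
      refine Finset.sum_eq_zero fun j _ => ?_
      by_cases h : A 0 j = 0
      · rw [h]
        ring
      · rw [hcon j h]
        ring
    let e : Fin (n + 1) → Fin (n + 1) := Fin.cons j j.succAbove
    have he : Function.Injective e := by
      have := cons_inj (n := n) j (f := (id : Fin n → Fin n)) Function.injective_id
      exact this
    let B := A.submatrix id e
    have hB0 : B 0 0 = A 0 j := rfl
    have hBs : B.submatrix Fin.succ Fin.succ = A.submatrix Fin.succ j.succAbove := rfl
    have hBd : ‖B.det‖ = ‖A.det‖ := norm_det_submatrix A id e Function.injective_id he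
    have hBn : B.det ≠ 0 := by
      rw [← norm_pos_iff, hBd, norm_pos_iff]
      exact hA
    have HB : ∀ k (f g : Fin k → Fin (n + 1)), Function.Injective f → Function.Injective g →
        (B.submatrix f g).det = 0 ∨ (B.submatrix f g).det ∈ G := fun k f g hf hg =>
      H k f (e ∘ g) hf (he.comp hg)
    have hg := gain hc h0 hmul hinv hneg hC n B HB (by rw [hB0]; exact hj1)
      (by rw [hBs]; exact hj2) hBn
    rw [hB0, hBs, hBd] at hg
    obtain ⟨σ, hσ1, hσ2⟩ := ih (A.submatrix Fin.succ j.succAbove) (fun k f g hf hg' =>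
      H k (Fin.succ ∘ f) (j.succAbove ∘ g) ((Fin.succ_injective n).comp hf)
        (Fin.succAbove_right_injective.comp hg')) hj2
    have hτ : Function.Injective (Fin.cons j (fun i => j.succAbove (σ i)) :
        Fin (n + 1) → Fin (n + 1)) := cons_inj j σ.injective
    refine ⟨Equiv.ofBijective _ (Finite.injective_iff_bijective.mp hτ), fun i => ?_, ?_⟩
    · refine Fin.cases ?_ (fun i => ?_) i
      · exact hj1
      · exact hσ1 i
    · rw [Fin.prod_univ_succ, Finset.prod_range_succ]
      have h3 : ∏ i : Fin n, ‖A i.succ ((Equiv.ofBijective _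
          (Finite.injective_iff_bijective.mp hτ)) i.succ)‖ =
          ∏ i : Fin n, ‖A.submatrix Fin.succ j.succAbove i (σ i)‖ := rfl
      have h4 : ‖A 0 ((Equiv.ofBijective _ (Finite.injective_iff_bijective.mp hτ)) 0)‖ =
          ‖A 0 j‖ := rfl
      rw [h3, h4]
      have hP : (0 : ℝ) ≤ ∏ k ∈ Finset.range n, (c ^ k * (k.factorial : ℝ)) :=
        Finset.prod_nonneg fun k _ => by
          have : 0 ≤ c := by linarith
          positivity
      calc ‖A 0 j‖ * ∏ i : Fin n, ‖A.submatrix Fin.succ j.succAbove i (σ i)‖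
          ≤ ‖A 0 j‖ * ((∏ k ∈ Finset.range n, (c ^ k * (k.factorial : ℝ))) *
              ‖(A.submatrix Fin.succ j.succAbove).det‖) :=
            mul_le_mul_of_nonneg_left hσ2 (norm_nonneg _)
        _ = (∏ k ∈ Finset.range n, (c ^ k * (k.factorial : ℝ))) *
              (‖A 0 j‖ * ‖(A.submatrix Fin.succ j.succAbove).det‖) := by ring
        _ ≤ (∏ k ∈ Finset.range n, (c ^ k * (k.factorial : ℝ))) *
              (c ^ n * (n.factorial : ℝ) * ‖A.det‖) := mul_le_mul_of_nonneg_left hg hP
        _ = _ := by ring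

end Pool.Agent.H88Gain
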